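import Mathlib

/-! Cuttings for families of curves whose order changes at most once per pair. -/

namespace Pool.Agent.Lib.MP_439fea_co.Z

open Finset
open scoped Classical

variable {V : Type}

lemma cut_hermite {q : ℕ} (hq : 1 ≤ q) (a : ℕ) : ∑ o ∈ range q, (a + o) / q = a := by
  induction a with
  | zero => exact sum_eq_zero fun o ho => by simpa using Or.inr (mem_range.1 ho)
  | succ a ih =>
    have h1 := sum_range_succ (fun o => (a + o) / q) q
    have h2 := sum_range_succ' (fun o => (a + o) / q) q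
    simp only [add_zero, Nat.add_div_right _ hq] at h1 h2
    have h3 : ∑ o ∈ range q, (a + 1 + o) / q = ∑ o ∈ range q, (a + (o + 1)) / q :=
      sum_congr rfl fun o _ => by rw [add_assoc, add_comm 1]
    omega

lemma cut_off {q : ℕ} (hq : 1 ≤ q) (a b : ℕ) :
    ∑ o ∈ range q, (if (a + o) / q = (b + o) / q then 0 else 1) ≤ Nat.dist a b := by
  wlog h : a ≤ b generalizing a b
  · simpa only [eq_comm, Nat.dist_comm] using this b a (by omega)
  have h1 : ∑ o ∈ range q, ((a + o) / q + if (a + o) / q = (b + o) / q then 0 else 1) ≤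
      ∑ o ∈ range q, (b + o) / q := sum_le_sum fun o _ => by
    have : (a + o) / q ≤ (b + o) / q := Nat.div_le_div_right (by omega)
    split_ifs <;> omega
  rw [sum_add_distrib, cut_hermite hq, cut_hermite hq] at h1
  rw [Nat.dist_eq_sub_of_le h]
  omega

lemma cut_union (W : ℕ → Finset V) (i k : ℕ) :
    W (i + k) ⊆ W i ∪ (Ico i (i + k)).biUnion fun j => W (j + 1) \ W j := by
  induction k with
  | zero => simp
  | succ k ih =>
    intro c hc
    by_cases h : c ∈ W (i + k)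
    · refine union_subset_union_right (biUnion_subset_biUnion_of_subset_left _ ?_) (ih h)
      exact Ico_subset_Ico_right (by omega)
    · exact mem_union_right _ (mem_biUnion.2 ⟨i + k, mem_Ico.2 (by omega), mem_sdiff.2 ⟨hc, h⟩⟩)

lemma cut_core (X Y : Finset V) (R : V → V → Prop) {q s M : ℕ} (hq : 1 ≤ q) (rk : ℕ → V → ℕ)
    (ι l : V → ℕ) (sl : ℕ → ℕ) (hsl : Monotone sl) (hM : ∀ i, sl i ≤ M)
    (inj : ∀ i, Set.InjOn (rk i) Y) (hι : ∀ p ∈ X, ι p ≤ s) (hl : ∀ p ∈ X, l p ≤ #Y)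
    (hR : ∀ p ∈ X, ∀ c ∈ Y, R p c → l p ≤ rk (ι p) c ∧ rk (ι p) c < l p + q)
    (tv : ∑ i ∈ range s, ∑ c ∈ Y, Nat.dist (rk i c) (rk (i + 1) c) ≤ #Y ^ 2) :
    ∃ lab : V → ℕ × ℕ, #(X.image lab) ≤ 2 * (#Y / q + 1) ^ 2 + (M + 1) * (#Y / q + 2) ∧
      (∀ i, #{c ∈ Y | ∃ p ∈ X, lab p = i ∧ R p c} ≤ 3 * q) ∧
      ∀ p ∈ X, ∀ p' ∈ X, lab p = lab p' → sl (ι p) = sl (ι p') := by
  obtain ⟨o, ho, hN⟩ : ∃ o ∈ range q, q * ∑ i ∈ range s, ∑ c ∈ Y,
      (if (rk i c + o) / q = (rk (i + 1) c + o) / q then 0 else 1) ≤ #Y ^ 2 := by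
    refine exists_le_of_sum_le (nonempty_range_iff.2 (by omega)) ?_
    rw [← mul_sum, sum_const, card_range, smul_eq_mul]
    refine Nat.mul_le_mul_left _ (le_trans ?_ tv)
    rw [sum_comm]
    refine sum_le_sum fun i _ => ?_
    rw [sum_comm]
    exact sum_le_sum fun c _ => cut_off hq _ _
  rw [mem_range] at ho
  let W (β i : ℕ) : Finset V := {c ∈ Y | (rk i c + o) / q = β ∨ (rk i c + o) / q = β + 1}
  let cnt (β i : ℕ) : ℕ := ∑ j ∈ range i, #(W β (j + 1) \ W β j)
  have hW : ∀ β i, #(W β i) ≤ 2 * q := fun β i => by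
    refine (card_le_card_of_injOn (t := Ico (β * q) (β * q + 2 * q)) (fun c => rk i c + o)
      (fun c hc => ?_) fun c hc c' hc' e => ?_).trans (by simp)
    · have h1 := (mem_filter.1 hc).2
      have h2 := Nat.div_add_mod (rk i c + o) q
      have h3 := Nat.mod_lt (rk i c + o) hq
      rw [mem_coe, mem_Ico]
      dsimp only
      rw [mul_comm β q]
      rcases h1 with h1 | h1 <;> rw [h1] at h2
      · omega
      · rw [mul_add_one] at h2
        omega
    · exact inj i (mem_filter.1 hc).1 (mem_filter.1 hc').1 (Nat.add_right_cancel e)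
  have hmono : ∀ β, Monotone (cnt β) := fun β i j h =>
    sum_le_sum_of_subset (range_subset_range.2 h)
  have hsum : ∑ β ∈ range (#Y / q + 2), cnt β s ≤ 2 * ∑ i ∈ range s, ∑ c ∈ Y,
      (if (rk i c + o) / q = (rk (i + 1) c + o) / q then 0 else 1) := by
    rw [sum_comm, mul_sum]
    refine sum_le_sum fun i _ => ?_
    have : ∀ β, #(W β (i + 1) \ W β i) = ∑ c ∈ Y, if c ∈ W β (i + 1) \ W β i then 1 else 0 :=
      fun β => by
        rw [← card_filter, filter_mem_eq_inter, inter_eq_right.2]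
        exact sdiff_subset.trans (filter_subset _ _)
    rw [sum_congr rfl fun β _ => this β, sum_comm, mul_sum]
    refine sum_le_sum fun c _ => ?_
    rw [← card_filter]
    split_ifs with h
    · rw [mul_zero, Nat.le_zero, card_eq_zero, filter_eq_empty_iff]
      intro β _ hc
      obtain ⟨h1, h2⟩ := mem_sdiff.1 hc
      exact h2 (mem_filter.2 ⟨(mem_filter.1 h1).1, h ▸ (mem_filter.1 h1).2⟩)
    · refine (card_le_card (t := {(rk (i + 1) c + o) / q, (rk (i + 1) c + o) / q - 1})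
        fun β hβ => ?_).trans (card_le_two.trans (by omega))
      have := (mem_filter.1 (mem_sdiff.1 (mem_filter.1 hβ).2).1).2
      simp only [mem_insert, mem_singleton]
      omega
  have hboth : ∀ β i j, i ≤ j → cnt β i / q + sl i = cnt β j / q + sl j →
      cnt β i / q = cnt β j / q ∧ sl i = sl j := fun β i j h e => by
    have h1 : cnt β i / q ≤ cnt β j / q := Nat.div_le_div_right (hmono β h)
    have h2 := hsl h
    omega
  refine ⟨fun p => ((l p + o) / q, cnt ((l p + o) / q) (ι p) / q + sl (ι p)), ?_, ?_, ?_⟩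
  · have h1 : X.image (fun p => ((l p + o) / q, cnt ((l p + o) / q) (ι p) / q + sl (ι p))) ⊆
        (range (#Y / q + 2)).biUnion fun β => {β} ×ˢ range (cnt β s / q + (M + 1)) := by
      intro i hi
      obtain ⟨p, hp, rfl⟩ := mem_image.1 hi
      have h2 : (l p + o) / q ≤ (#Y + q) / q := Nat.div_le_div_right (by have := hl p hp; omega)
      rw [Nat.add_div_right _ hq] at h2
      have h3 : cnt ((l p + o) / q) (ι p) / q ≤ cnt ((l p + o) / q) s / q :=
        Nat.div_le_div_right (hmono _ (hι p hp))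
      have h4 := hM (ι p)
      exact mem_biUnion.2 ⟨_, mem_range.2 (by omega),
        mem_product.2 ⟨mem_singleton_self _, mem_range.2 (by dsimp only; omega)⟩⟩
    refine (card_le_card h1).trans (card_biUnion_le.trans ?_)
    simp only [card_product, card_singleton, card_range, one_mul]
    rw [sum_add_distrib, sum_const, card_range, smul_eq_mul, mul_comm (#Y / q + 2)]
    refine Nat.add_le_add_right (Nat.le_of_mul_le_mul_left (c := q * q) ?_ (by positivity)) _
    have h5 : q * ∑ β ∈ range (#Y / q + 2), cnt β s / q ≤ ∑ β ∈ range (#Y / q + 2), cnt β s := by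
      rw [mul_sum]
      exact sum_le_sum fun β _ => Nat.mul_div_le _ _
    have h6 : #Y ≤ q * (#Y / q + 1) := (Nat.lt_mul_div_succ _ hq).le
    calc _ = q * (q * ∑ β ∈ range (#Y / q + 2), cnt β s / q) := mul_assoc _ _ _
      _ ≤ q * (2 * _) := Nat.mul_le_mul_left _ (h5.trans hsum)
      _ = 2 * (q * _) := by ring
      _ ≤ 2 * #Y ^ 2 := Nat.mul_le_mul_left _ hN
      _ ≤ 2 * (q * (#Y / q + 1)) ^ 2 := by gcongr
      _ = _ := by ring
  · rintro ⟨β, k⟩
    set Z := {p ∈ X | ((l p + o) / q, cnt ((l p + o) / q) (ι p) / q + sl (ι p)) = (β, k)} with hZ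
    rcases Z.eq_empty_or_nonempty with h | h
    · refine (card_eq_zero.2 (filter_eq_empty_iff.2 ?_)).trans_le (Nat.zero_le _)
      rintro c - ⟨p, hp, e, -⟩
      exact notMem_empty p (h ▸ mem_filter.2 ⟨hp, e⟩)
    obtain ⟨p0, hp0, m0⟩ := Z.exists_min_image ι h
    obtain ⟨p1, hp1, m1⟩ := Z.exists_max_image ι h
    obtain ⟨a0, b0⟩ := Prod.mk.inj (mem_filter.1 hp0).2
    obtain ⟨a1, b1⟩ := Prod.mk.inj (mem_filter.1 hp1).2
    rw [a0] at b0
    rw [a1] at b1
    have h1 := (hboth β _ _ (m0 p1 hp1) (b0.trans b1.symm)).1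
    have h2 : cnt β (ι p0) + ∑ j ∈ Ico (ι p0) (ι p1), #(W β (j + 1) \ W β j) = cnt β (ι p1) :=
      sum_range_add_sum_Ico _ (m0 p1 hp1)
    have h3 := Nat.div_add_mod (cnt β (ι p0)) q
    have h4 := Nat.div_add_mod (cnt β (ι p1)) q
    have h5 := Nat.mod_lt (cnt β (ι p1)) hq
    rw [h1] at h3
    refine (card_le_card (t := W β (ι p0) ∪ (Ico (ι p0) (ι p1)).biUnion
      fun j => W β (j + 1) \ W β j) fun c hc => ?_).trans
      ((card_union_le _ _).trans ((Nat.add_le_add (hW _ _) card_biUnion_le).trans (by omega)))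
    obtain ⟨hY, p, hp, e, hr⟩ := mem_filter.1 hc
    have hp' : p ∈ Z := mem_filter.2 ⟨hp, e⟩
    obtain ⟨r1, r2⟩ := hR p hp c hY hr
    have r3 : (l p + o) / q ≤ (rk (ι p) c + o) / q := Nat.div_le_div_right (by omega)
    have r4 : (rk (ι p) c + o) / q ≤ (l p + o + q) / q := Nat.div_le_div_right (by omega)
    rw [Nat.add_div_right _ hq] at r4
    rw [(Prod.mk.inj e).1] at r3 r4
    obtain ⟨j, hj⟩ := Nat.exists_eq_add_of_le (m0 p hp')
    have r5 : c ∈ W β (ι p0 + j) := hj ▸ mem_filter.2 ⟨hY, by omega⟩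
    refine union_subset_union_right (biUnion_subset_biUnion_of_subset_left _ ?_)
      (cut_union (W β) _ _ r5)
    exact Ico_subset_Ico_right (hj ▸ m1 p hp')
  · intro p _ p' _ e
    obtain ⟨e1, e2⟩ := Prod.mk.inj e
    rw [e1] at e2
    rcases le_total (ι p) (ι p') with h | h
    exacts [(hboth _ _ _ h e2).2, (hboth _ _ _ h e2.symm).2.symm]

lemma cut_flip {f : ℕ → Prop} [DecidablePred f] (h : Monotone f ∨ Antitone f) (s : ℕ) :
    ∑ i ∈ range s, (if (f i ↔ f (i + 1)) then 0 else 1) ≤ 1 := by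
  have key : ∀ i j, i < j → ¬ (f i ↔ f (i + 1)) → (f j ↔ f (j + 1)) := fun i j hij e => by
    rcases h with h | h
    · have h1 : f i → f (i + 1) := h (Nat.le_succ i)
      have h2 : f (i + 1) → f j := h hij
      have h3 : f j → f (j + 1) := h (Nat.le_succ j)
      tauto
    · have h1 : f (i + 1) → f i := h (Nat.le_succ i)
      have h2 : f j → f (i + 1) := h hij
      have h3 : f (j + 1) → f j := h (Nat.le_succ j)
      tauto
  simp only [← ite_not (f _ ↔ _) (1 : ℕ) 0, ← card_filter]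
  refine card_le_one.2 fun i hi j hj => ?_
  by_contra e
  rcases lt_or_gt_of_ne e with e | e
  exacts [(mem_filter.1 hj).2 (key i j e (mem_filter.1 hi).2),
    (mem_filter.1 hi).2 (key j i e (mem_filter.1 hj).2)]

lemma cut_times {S : Finset ℝ} (h : S.Nonempty) : ∃ tm : ℕ → ℝ, Monotone tm ∧ (∀ i, tm i ∈ S) ∧
    ∀ t ∈ S, ∃ i ≤ #S, tm i = t := by
  have h0 := card_pos.2 h
  refine ⟨fun i => S.orderEmbOfFin rfl ⟨min i (#S - 1), by omega⟩,
    fun i j e => (S.orderEmbOfFin rfl).monotone (Fin.mk_le_mk.2 (by omega)),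
    fun i => orderEmbOfFin_mem _ _ _, fun t ht => ?_⟩
  obtain ⟨i, rfl⟩ : t ∈ Set.range (S.orderEmbOfFin rfl) := by rwa [range_orderEmbOfFin]
  exact ⟨i, i.2.le, congrArg _ (Fin.ext (by have := i.2; dsimp only; omega))⟩

/-- The cutting for curves `g c` whose differences are monotone. -/
lemma cut_curves (X Y : Finset V) (R : V → V → Prop) (x y τ : V → ℝ) (g : V → ℝ → ℝ) {q M : ℕ}
    (hq : 1 ≤ q) (sl : ℝ → ℕ) (hsl : Monotone sl) (hM : ∀ t, sl t ≤ M)
    (hR : ∀ p ∈ X, ∀ c ∈ Y, R p c ↔ g c (x p) = y p)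
    (inj : ∀ c ∈ Y, ∀ c' ∈ Y, ∀ t, g c t = g c' t → τ c = τ c' → c = c')
    (mon : ∀ c ∈ Y, ∀ c' ∈ Y, τ c ≤ τ c' → ∀ p ∈ X, ∀ p' ∈ X, x p ≤ x p' →
      g c (x p) - g c' (x p) ≤ g c (x p') - g c' (x p')) :
    ∃ lab : V → ℕ × ℕ, #(X.image lab) ≤ 2 * (#Y / q + 1) ^ 2 + (M + 1) * (#Y / q + 2) ∧
      (∀ i, #{c ∈ Y | ∃ p ∈ X, lab p = i ∧ #{c ∈ Y | R p c} ≤ q ∧ R p c} ≤ 3 * q) ∧
      ∀ p ∈ X, ∀ p' ∈ X, lab p = lab p' → sl (x p) = sl (x p') := by
  rcases X.eq_empty_or_nonempty with rfl | hX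
  · exact ⟨fun _ => 0, by simp, by simp, by simp⟩
  obtain ⟨tm, t1, t2, t3⟩ := cut_times (hX.image x)
  choose! ι hι hι' using fun p (hp : p ∈ X) => t3 (x p) (mem_image_of_mem x hp)
  let k (i : ℕ) (c : V) : ℝ ×ₗ ℝ := toLex (g c (tm i), τ c)
  have hk : ∀ i c c', k i c < k i c' ↔
      g c (tm i) < g c' (tm i) ∨ (g c (tm i) = g c' (tm i) ∧ τ c < τ c') := fun i c c' =>
    Prod.Lex.toLex_lt_toLex
  have mon' : ∀ c ∈ Y, ∀ c' ∈ Y, τ c ≤ τ c' → ∀ i j, i ≤ j →
      g c (tm i) - g c' (tm i) ≤ g c (tm j) - g c' (tm j) := fun c hc c' hc' e i j h => by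
    obtain ⟨p, hp, e1⟩ := mem_image.1 (t2 i)
    obtain ⟨p', hp', e2⟩ := mem_image.1 (t2 j)
    rw [← e1, ← e2]
    exact mon c hc c' hc' e p hp p' hp' (by rw [e1, e2]; exact t1 h)
  have hlt : ∀ i, ∀ c ∈ Y, ∀ c' ∈ Y, k i c < k i c' →
      #{a ∈ Y | k i a < k i c} < #{a ∈ Y | k i a < k i c'} := fun i c hc c' hc' e =>
    card_lt_card ⟨fun a ha => mem_filter.2 ⟨(mem_filter.1 ha).1, (mem_filter.1 ha).2.trans e⟩,
      fun h => lt_irrefl _ (mem_filter.1 (h (mem_filter.2 ⟨hc, e⟩))).2⟩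
  obtain ⟨lab, l1, l2, l3⟩ := cut_core X Y (fun p c => #{c ∈ Y | R p c} ≤ q ∧ R p c)
    (s := #(X.image x)) hq (fun i c => #{a ∈ Y | k i a < k i c}) ι
    (fun p => #{a ∈ Y | g a (x p) < y p}) (fun i => sl (tm i)) (hsl.comp t1) (fun i => hM _)
    (fun i c hc c' hc' e => by
      rcases lt_trichotomy (k i c) (k i c') with h | h | h
      · exact absurd e (hlt i c hc c' hc' h).ne
      · obtain ⟨e1, e2⟩ := Prod.mk.inj (toLex.injective h)
        exact inj c hc c' hc' _ e1 e2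
      · exact absurd e (hlt i c' hc' c hc h).ne')
    hι (fun p _ => card_filter_le _ _)
    (fun p hp c hc ⟨r1, r2⟩ => by
      have e := (hR p hp c hc).1 r2
      refine ⟨card_le_card fun a ha => mem_filter.2 ⟨(mem_filter.1 ha).1, (hk _ _ _).2 (Or.inl ?_)⟩,
        ?_⟩
      · rw [hι' p hp, e]
        exact (mem_filter.1 ha).2
      · have h1 : {a ∈ Y | k (ι p) a < k (ι p) c} ⊆
            {a ∈ Y | g a (x p) < y p} ∪ ({a ∈ Y | R p a}).erase c := fun a ha => by
          obtain ⟨hY, h2⟩ := mem_filter.1 ha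
          have hne : a ≠ c := fun e' => lt_irrefl _ (e' ▸ h2)
          rw [hk, hι' p hp, e] at h2
          rcases h2 with h2 | h2
          · exact mem_union_left _ (mem_filter.2 ⟨hY, h2⟩)
          · exact mem_union_right _
              (mem_erase.2 ⟨hne, mem_filter.2 ⟨hY, (hR p hp a hY).2 h2.1⟩⟩)
        have h3 := card_erase_lt_of_mem (mem_filter.2 ⟨hc, r2⟩ : c ∈ {a ∈ Y | R p a})
        have h4 := (card_le_card h1).trans (card_union_le _ _)
        omega)
    (by
      have h1 : ∀ i c, Nat.dist #{a ∈ Y | k i a < k i c} #{a ∈ Y | k (i + 1) a < k (i + 1) c} ≤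
          ∑ a ∈ Y, if (k i a < k i c ↔ k (i + 1) a < k (i + 1) c) then 0 else 1 := fun i c => by
        have h2 : ∀ (A B : V → Prop) [DecidablePred A] [DecidablePred B], #{a ∈ Y | A a} ≤
            #{a ∈ Y | B a} + ∑ a ∈ Y, if (A a ↔ B a) then 0 else 1 := fun A B _ _ => by
          rw [card_filter, card_filter, ← sum_add_distrib]
          exact sum_le_sum fun a _ => by split_ifs <;> tauto
        have h3 := h2 (fun a => k i a < k i c) fun a => k (i + 1) a < k (i + 1) c
        have h4 := h2 (fun a => k (i + 1) a < k (i + 1) c) fun a => k i a < k i c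
        simp only [iff_comm (a := k (i + 1) _ < _)] at h4
        unfold Nat.dist
        omega
      refine (sum_le_sum fun i _ => sum_le_sum fun c _ => h1 i c).trans ?_
      rw [sum_comm, sq, ← smul_eq_mul]
      refine sum_le_card_nsmul _ _ _ fun c hc => ?_
      rw [sum_comm, card_eq_sum_ones Y]
      refine sum_le_sum fun a ha => cut_flip (f := fun i => k i a < k i c) ?_ _
      rcases le_total (τ a) (τ c) with h | h
      · refine Or.inr fun i j e h2 => ?_
        have := mon' a ha c hc h i j e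
        refine (hk _ _ _).2 ?_
        rcases (hk _ _ _).1 h2 with h2 | h2
        · exact Or.inl (by linarith)
        · exact (lt_or_eq_of_le (by linarith [h2.1])).imp_right fun e' => ⟨e', h2.2⟩
      · refine Or.inl fun i j e h2 => ?_
        have := mon' c hc a ha h i j e
        refine (hk _ _ _).2 ?_
        rcases (hk _ _ _).1 h2 with h2 | h2
        · exact Or.inl (by linarith)
        · exact absurd h2.2 (not_lt.2 h))
  exact ⟨lab, l1, fun i => by convert l2 i,
    fun p hp p' hp' e => by simpa only [hι' p hp, hι' p' hp'] using l3 p hp p' hp' e⟩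

end Pool.Agent.Lib.MP_439fea_co.Z
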