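import Pool.Agent.Lib.MP_439fea_co.Z.Defs
import Pool.Agent.Lib.MP_439fea_co.Z.PCut

/-! Unit distance graphs in a strip have cuttings. -/

namespace Pool.Agent.Lib.MP_439fea_co.Z
open Finset
open scoped Classical

variable {V : Type} {E : V → V → Prop} {x y : V → ℝ} {up : V → Prop}

/-- Unit distances between an upper and a lower family of points in a vertical strip. -/
structure Arc (E : V → V → Prop) (x y : V → ℝ) (up : V → Prop) : Prop where
  inj : ∀ a b, (up a ↔ up b) → x a = x b → y a = y b → a = b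
  wid : ∀ a b, |x a - x b| < 1
  adj : ∀ a b, E a b ↔ (x a - x b) ^ 2 + (y a - y b) ^ 2 = 1 ∧
    (up a ∧ ¬ up b ∧ y b < y a ∨ up b ∧ ¬ up a ∧ y a < y b)

/-- Two small clusters, one above the other: all unit distances are edges. -/
theorem Arc.of_sep (inj : ∀ a b, x a = x b → y a = y b → a = b) (wid : ∀ a b, |x a - x b| < 1)
    (near : ∀ a b, (up a ↔ up b) → (x a - x b) ^ 2 + (y a - y b) ^ 2 < 1)
    (sep : ∀ a b, up a → ¬ up b → y b < y a)
    (adj : ∀ a b, E a b ↔ (x a - x b) ^ 2 + (y a - y b) ^ 2 = 1) : Arc E x y up := by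
  refine ⟨fun a b _ => inj a b, wid, fun a b => (adj a b).trans ⟨fun e => ⟨e, ?_⟩, And.left⟩⟩
  have := mt (near a b) (not_lt.2 e.ge)
  by_cases ha : up a
  · exact Or.inl ⟨ha, by tauto, sep a b ha (by tauto)⟩
  · exact Or.inr ⟨by tauto, ha, sep b a (by tauto) ha⟩

lemma parc_conc {a b c d : ℝ} (ha : |a| < 1) (hd : |d| < 1) (hb : a ≤ b) (hc : a ≤ c)
    (e : a + d = b + c) : √(1 - a ^ 2) + √(1 - d ^ 2) ≤ √(1 - b ^ 2) + √(1 - c ^ 2) := by
  obtain ⟨a1, a2⟩ := abs_lt.1 ha
  obtain ⟨d1, d2⟩ := abs_lt.1 hd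
  obtain rfl : d = b + c - a := by linarith
  have p : a * (b + c - a) ≤ b * c := by nlinarith [mul_nonneg (sub_nonneg.2 hb) (sub_nonneg.2 hc)]
  have p2 : -1 ≤ a * (b + c - a) := by nlinarith
  have na : 0 ≤ 1 - a ^ 2 := by nlinarith
  have nd : 0 ≤ 1 - (b + c - a) ^ 2 := by nlinarith
  have nb : 0 ≤ 1 - b ^ 2 := by nlinarith
  have nc : 0 ≤ 1 - c ^ 2 := by nlinarith
  have h1 : √(1 - a ^ 2) * √(1 - (b + c - a) ^ 2) ≤ √(1 - b ^ 2) * √(1 - c ^ 2) := by
    rw [← Real.sqrt_mul na, ← Real.sqrt_mul nb]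
    refine Real.sqrt_le_sqrt ?_
    nlinarith [mul_nonneg (sub_nonneg.2 p) (show 0 ≤ 2 + a * (b + c - a) + b * c by linarith)]
  refine (pow_le_pow_iff_left₀ (by positivity) (by positivity) two_ne_zero).1 ?_
  nlinarith [Real.sq_sqrt na, Real.sq_sqrt nd, Real.sq_sqrt nb, Real.sq_sqrt nc]

lemma Arc.flip (h : Arc E x y up) : Arc E x (fun a => -y a) fun a => ¬ up a := by
  refine ⟨fun a b e e1 e2 => h.inj a b (not_iff_not.1 e) e1 (neg_injective e2), h.wid,
    fun a b => (h.adj a b).trans ?_⟩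
  rw [show (-y a - -y b) ^ 2 = (y a - y b) ^ 2 by ring]
  simp only [not_not, neg_lt_neg_iff]
  tauto

lemma Arc.symm (h : Arc E x y up) (a b : V) (e : E a b) : E b a := by
  obtain ⟨e1, e2⟩ := (h.adj a b).1 e
  exact (h.adj b a).2 ⟨by linarith, e2.symm⟩

lemma Arc.low (h : Arc E x y up) {a b : V} (ha : ¬ up a) (e : E a b) : up b ∧ y a < y b := by
  have := ((h.adj a b).1 e).2
  tauto

lemma parc_k22 (h : Arc E x y up) {a a' b b' : V} (ha : ¬ up a) (hne : a ≠ a') (e1 : E a b)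
    (e2 : E a' b) (e3 : E a b') (e4 : E a' b') : b = b' := by
  obtain ⟨ub, l1⟩ := h.low ha e1
  obtain ⟨ub', -⟩ := h.low ha e3
  have ha' : ¬ up a' := (h.flip.low (not_not.2 ub) (h.symm _ _ e2)).1
  obtain ⟨-, l2⟩ := h.low ha' e4
  have q1 := ((h.adj _ _).1 e1).1
  have q2 := ((h.adj _ _).1 e2).1
  have q3 := ((h.adj _ _).1 e3).1
  have q4 := ((h.adj _ _).1 e4).1
  have hu : x a - x a' ≠ 0 ∨ y a - y a' ≠ 0 := by
    by_contra! k
    exact hne (h.inj a a' (by tauto) (sub_eq_zero.1 k.1) (sub_eq_zero.1 k.2))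
  have hm : 0 < (x a + x a' - x b - x b') ^ 2 + (y a + y a' - y b - y b') ^ 2 :=
    add_pos_of_nonneg_of_pos (sq_nonneg _) (sq_pos_of_neg (by linarith))
  have uv : (x a - x a') * (x b - x b') + (y a - y a') * (y b - y b') = 0 := by linarith
  have um : (x a - x a') * (x a + x a' - x b - x b') +
      (y a - y a') * (y a + y a' - y b - y b') = 0 := by linarith
  have vm : (x b - x b') * (x a + x a' - x b - x b') +
      (y b - y b') * (y a + y a' - y b - y b') = 0 := by linarith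
  have hd : (x b - x b') * (y a + y a' - y b - y b') -
      (y b - y b') * (x a + x a' - x b - x b') = 0 := by
    rcases hu with hu | hu <;> refine mul_left_cancel₀ hu ?_
    · linear_combination (y a + y a' - y b - y b') * uv - (y b - y b') * um
    · linear_combination (x b - x b') * um - (x a + x a' - x b - x b') * uv
  refine h.inj b b' (by tauto) (sub_eq_zero.1 (mul_left_cancel₀ hm.ne' ?_))
    (sub_eq_zero.1 (mul_left_cancel₀ hm.ne' ?_))
  · linear_combination (x a + x a' - x b - x b') * vm + (y a + y a' - y b - y b') * hd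
  · linear_combination (y a + y a' - y b - y b') * vm - (x a + x a' - x b - x b') * hd

lemma parc_half (h : Arc E x y up) (X Y : Finset V) {q M : ℕ} (hq : 1 ≤ q) (sl : ℝ → ℕ)
    (hsl : Monotone sl) (hM : ∀ t, sl t ≤ M) : ∃ lab : V → ℕ × ℕ,
    ((X.filter fun a => ¬ up a).image lab).card ≤
      2 * (Y.card / q + 1) ^ 2 + (M + 1) * (Y.card / q + 2) ∧
    (∀ i, (Y.filter fun b => ∃ a ∈ X, ¬ up a ∧ lab a = i ∧ (nb E Y a).card ≤ q ∧ E a b).card ≤
      3 * q) ∧
    ∀ a ∈ X, ∀ b ∈ X, ¬ up a → ¬ up b → lab a = lab b → sl (x a) = sl (x b) := by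
  obtain ⟨lab, l1, l2, l3⟩ := cut_curves (X.filter fun a => ¬ up a) (Y.filter up) E x y x
    (fun c t => y c - √(1 - (t - x c) ^ 2)) hq sl hsl hM
    (fun p hp c hc => by
      have h1 := (mem_filter.1 hp).2
      have h2 := (mem_filter.1 hc).2
      have h3 : 0 < 1 - (x p - x c) ^ 2 := sub_pos.2 ((sq_lt_one_iff_abs_lt_one _).2 (h.wid p c))
      constructor
      · intro e
        rw [show 1 - (x p - x c) ^ 2 = (y c - y p) ^ 2 by linarith [((h.adj p c).1 e).1],
          Real.sqrt_sq (sub_nonneg.2 (h.low h1 e).2.le), sub_sub_cancel]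
      · intro e
        have h4 := Real.sq_sqrt h3.le
        have h5 := Real.sqrt_pos.2 h3
        rw [show √(1 - (x p - x c) ^ 2) = y c - y p by linarith] at h4 h5
        exact (h.adj p c).2 ⟨by linarith, Or.inr ⟨h2, h1, by linarith⟩⟩)
    (fun c hc c' hc' t e1 e2 => h.inj c c' (iff_of_true (mem_filter.1 hc).2 (mem_filter.1 hc').2)
      e2 (by rw [e2] at e1; linarith))
    (fun c _ c' _ e p _ p' _ e' => by
      have := parc_conc (b := x p - x c) (c := x p' - x c') (h.wid p c') (h.wid p' c)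
        (by linarith) (by linarith) (by ring)
      linarith)
  have hY : (Y.filter up).card / q ≤ Y.card / q := Nat.div_le_div_right (card_filter_le _ _)
  refine ⟨lab, l1.trans (by gcongr), fun i => le_trans (card_le_card fun b hb => ?_) (l2 i),
    fun a ha b hb ua ub => l3 a (mem_filter.2 ⟨ha, ua⟩) b (mem_filter.2 ⟨hb, ub⟩)⟩
  obtain ⟨hb, a, ha, ua, e1, e2, e3⟩ := mem_filter.1 hb
  refine mem_filter.2 ⟨mem_filter.2 ⟨hb, (h.low ua e3).1⟩, a, mem_filter.2 ⟨ha, ua⟩, e1,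
    le_trans (card_le_card fun c hc => ?_) e2, e3⟩
  exact mem_filter.2 ⟨(mem_filter.1 (mem_filter.1 hc).1).1, (mem_filter.1 hc).2⟩

/-- The cutting with classes inside slabs. -/
theorem Arc.cut_slab (h : Arc E x y up) (X Y : Finset V) {q M : ℕ} (hq : 1 ≤ q) (sl : ℝ → ℕ)
    (hsl : Monotone sl) (hM : ∀ t, sl t ≤ M) : ∃ lab : V → ℕ,
    (X.image lab).card ≤ 4 * (Y.card / q + 1) ^ 2 + 2 * (M + 1) * (Y.card / q + 2) ∧
    (∀ i, (Y.filter fun b => ∃ a ∈ X, lab a = i ∧ (nb E Y a).card ≤ q ∧ E a b).card ≤ 3 * q) ∧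
    ∀ a ∈ X, ∀ b ∈ X, lab a = lab b → sl (x a) = sl (x b) ∧ (up a ↔ up b) := by
  obtain ⟨l, l1, l2, l3⟩ := parc_half h X Y hq sl hsl hM
  obtain ⟨m, m1, m2, m3⟩ := parc_half h.flip X Y hq sl hsl hM
  let f (a : V) : (ℕ × ℕ) ⊕ (ℕ × ℕ) := if up a then .inr (m a) else .inl (l a)
  have hf : ∀ a b, f a = f b → (¬ up a ∧ ¬ up b ∧ l a = l b) ∨ (up a ∧ up b ∧ m a = m b) :=
    fun a b e => by
      by_cases ha : up a <;> by_cases hb : up b <;> simp_all [f]
  refine ⟨fun a => Encodable.encode (f a), ?_, fun i => ?_, fun a ha b hb e => ?_⟩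
  · have h1 : X.image (fun a => Encodable.encode (f a)) ⊆
        (((X.filter fun a => ¬ up a).image l).disjSum
          ((X.filter fun a => ¬ ¬ up a).image m)).image Encodable.encode := by
      intro i hi
      obtain ⟨a, ha, rfl⟩ := mem_image.1 hi
      refine mem_image_of_mem _ ?_
      by_cases ua : up a
      · rw [show f a = .inr (m a) from if_pos ua, inr_mem_disjSum]
        exact mem_image_of_mem _ (mem_filter.2 ⟨ha, not_not.2 ua⟩)
      · rw [show f a = .inl (l a) from if_neg ua, inl_mem_disjSum]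
        exact mem_image_of_mem _ (mem_filter.2 ⟨ha, ua⟩)
    refine (card_le_card h1).trans (card_image_le.trans ?_)
    rw [card_disjSum]
    refine (Nat.add_le_add l1 (by convert m1)).trans_eq ?_
    ring
  · by_cases h0 : ∃ a0, Encodable.encode (f a0) = i
    · obtain ⟨a0, rfl⟩ := h0
      by_cases u0 : up a0
      · refine le_trans (card_le_card fun b hb => ?_) (m2 (m a0))
        obtain ⟨hb, a, ha, e1, e2⟩ := mem_filter.1 hb
        have := hf _ _ (Encodable.encode_injective e1)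
        exact (@mem_filter _ _ (_) _ _).2 ⟨hb, a, ha, by tauto, by tauto, e2⟩
      · refine le_trans (card_le_card fun b hb => ?_) (l2 (l a0))
        obtain ⟨hb, a, ha, e1, e2⟩ := mem_filter.1 hb
        have := hf _ _ (Encodable.encode_injective e1)
        exact mem_filter.2 ⟨hb, a, ha, by tauto, by tauto, e2⟩
    · refine (card_eq_zero.2 (filter_eq_empty_iff.2 ?_)).trans_le (Nat.zero_le _)
      rintro b - ⟨a, -, e, -⟩
      exact h0 ⟨a, e⟩
  · rcases hf _ _ (Encodable.encode_injective e) with ⟨ua, ub, e⟩ | ⟨ua, ub, e⟩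
    · exact ⟨l3 a ha b hb ua ub e, iff_of_false ua ub⟩
    · exact ⟨m3 a ha b hb (not_not.2 ua) (not_not.2 ub) e, iff_of_true ua ub⟩

theorem Arc.pl (h : Arc E x y up) : PL E := by
  refine ⟨h.symm, fun a a' b b' hne e1 e2 e3 e4 => ?_, fun X Y q hq => ?_⟩
  · by_cases ha : up a
    exacts [parc_k22 h.flip (not_not.2 ha) hne e1 e2 e3 e4, parc_k22 h ha hne e1 e2 e3 e4]
  · obtain ⟨lab, l1, l2, -⟩ := h.cut_slab X Y (M := 0) hq (fun _ => 0) monotone_const fun _ => le_rfl
    refine ⟨lab, l1.trans ?_, fun i => (l2 i).trans (by omega)⟩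
    nlinarith [Nat.zero_le (Y.card / q)]

/-- Induced subgraphs and relabellings. -/
theorem PL.comap {W : Type} (h : PL E) {f : W → V} (hf : Function.Injective f) :
    PL fun a b => E (f a) (f b) := by
  refine ⟨fun a b => h.symm _ _, fun a a' b b' hne e1 e2 e3 e4 =>
    hf (h.k22 _ _ _ _ (hf.ne hne) e1 e2 e3 e4), fun X Y q hq => ?_⟩
  obtain ⟨lab, l1, l2⟩ := h.cut (X.image f) (Y.image f) q hq
  rw [card_image_of_injective _ hf, image_image] at l1
  refine ⟨lab ∘ f, l1, fun i => le_trans (card_le_card_of_injOn f (fun b hb => ?_) hf.injOn) (l2 i)⟩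
  obtain ⟨hb, a, ha, e1, e2, e3⟩ := mem_filter.1 (mem_coe.1 hb)
  refine mem_coe.2 (mem_filter.2 ⟨mem_image_of_mem _ hb, f a, mem_image_of_mem _ ha, e1, ?_, e3⟩)
  rw [nb, filter_image]
  exact card_image_le.trans e2

end Pool.Agent.Lib.MP_439fea_co.Z
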