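import Pool.Agent.Lib.MP_439fea_co.Z.PSt

namespace Pool.Agent.Lib.MP_439fea_co.Z
open Finset
open scoped Classical
noncomputable section

variable {V : Type} {E : V → V → Prop} {C : ℝ}

theorem nb_mono {Y Y' : Finset V} (h : Y ⊆ Y') (a : V) : nb E Y a ⊆ nb E Y' a :=
  filter_subset_filter _ h

theorem ed_mono {X X' Y Y' : Finset V} (hX : X ⊆ X') (hY : Y ⊆ Y') : ed E X Y ≤ ed E X' Y' :=
  (sum_le_sum fun a _ => card_le_card (nb_mono hY a)).trans (sum_le_sum_of_subset hX)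

theorem card_mul_le_ed (R S : Finset V) {j : ℝ} (hR : ∀ y ∈ R, j ≤ (nb E S y).card) :
    j * R.card ≤ ed E R S := by
  simp only [ed]
  push_cast
  have := card_nsmul_le_sum R _ _ hR
  rwa [nsmul_eq_mul, mul_comm] at this

theorem ed_le_card_mul (R S : Finset V) {j : ℝ} (hR : ∀ y ∈ R, ((nb E S y).card : ℝ) ≤ j) :
    (ed E R S : ℝ) ≤ j * R.card := by
  simp only [ed]
  push_cast
  have := sum_le_card_nsmul R _ _ hR
  rwa [nsmul_eq_mul, mul_comm] at this

/-- Edges at rich vertices. -/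
theorem rich_ed (hst : ST E C) (hC : 0 < C) (hs : ∀ a b, E a b → E b a) (R S : Finset V) {j : ℝ}
    (hj : 2 * C ≤ j) (hR : ∀ y ∈ R, j ≤ (nb E S y).card) :
    (ed E R S : ℝ) ≤ 8 * C ^ 3 * (S.card : ℝ) ^ 2 / j ^ 2 + 2 * C * S.card := by
  have hj0 : 0 < j := by linarith
  have h1 := hst S R (j / (2 * C)) (by rw [le_div_iff₀ (by linarith)]; linarith)
  have h2 := card_mul_le_ed R S hR
  rw [ed_comm hs] at h1
  have e1 : C * ((S.card : ℝ) ^ 2 / (j / (2 * C)) ^ 2 + j / (2 * C) * R.card + S.card) =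
      4 * C ^ 3 * (S.card : ℝ) ^ 2 / j ^ 2 + j * R.card / 2 + C * S.card := by
    field_simp
    ring
  have e2 : 8 * C ^ 3 * (S.card : ℝ) ^ 2 / j ^ 2 = 2 * (4 * C ^ 3 * (S.card : ℝ) ^ 2 / j ^ 2) := by
    ring
  rw [e1] at h1
  rw [e2]
  linarith

/-- Number of rich vertices. -/
theorem rich_card (hst : ST E C) (hC : 0 < C) (hs : ∀ a b, E a b → E b a) (R S : Finset V) {j : ℝ}
    (hj : 2 * C ≤ j) (hR : ∀ y ∈ R, j ≤ (nb E S y).card) :
    (R.card : ℝ) ≤ 8 * C ^ 3 * (S.card : ℝ) ^ 2 / j ^ 3 + 2 * C * S.card / j := by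
  have hj0 : 0 < j := by linarith
  have h1 := (card_mul_le_ed R S hR).trans (rich_ed hst hC hs R S hj hR)
  have e1 : 8 * C ^ 3 * (S.card : ℝ) ^ 2 / j ^ 3 + 2 * C * S.card / j =
      (8 * C ^ 3 * (S.card : ℝ) ^ 2 / j ^ 2 + 2 * C * S.card) / j := by
    field_simp
  rw [e1, le_div_iff₀ hj0, mul_comm]
  exact h1

/-- Small sets span few edges. -/
theorem ed_small (hst : ST E C) (hC : 0 ≤ C) (S T : Finset V) {N ε k ρ : ℝ} (hk : 1 ≤ k * ρ)
    (hρ : 0 < ρ) (hS : (S.card : ℝ) ≤ N) (hT : (T.card : ℝ) ≤ N) (hN : N ≤ ε * ρ ^ 3) :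
    (ed E S T : ℝ) ≤ C * ((ε / k ^ 2 + k) * ρ + 1) * N := by
  have hk0 : 0 < k := by
    by_contra h
    have : k * ρ ≤ 0 := mul_nonpos_of_nonpos_of_nonneg (not_lt.1 h) hρ.le
    linarith
  have hS0 : (0 : ℝ) ≤ S.card := Nat.cast_nonneg _
  have hN0 : 0 ≤ N := hS0.trans hS
  refine (hst S T (k * ρ) hk).trans ?_
  rw [mul_assoc C]
  refine mul_le_mul_of_nonneg_left ?_ hC
  have h1 : (S.card : ℝ) ^ 2 / (k * ρ) ^ 2 ≤ ε / k ^ 2 * ρ * N := by
    rw [div_le_iff₀ (by positivity)]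
    calc (S.card : ℝ) ^ 2 ≤ N * N := by nlinarith
      _ ≤ ε * ρ ^ 3 * N := mul_le_mul_of_nonneg_right hN hN0
      _ = _ := by field_simp
  have h2 : k * ρ * T.card ≤ k * ρ * N := mul_le_mul_of_nonneg_left hT (by positivity)
  nlinarith

/-- Labelled form: all fibres of the labelling are small, each `y` sees few labels. -/
theorem ed_label {L : Type} (hst : ST E C) (hC : 0 ≤ C) (hs : ∀ a b, E a b → E b a)
    (X Y : Finset V) (lab : V → L) {N J M : ℝ} (hM : 1 ≤ M)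
    (hN : ∀ x ∈ X, ((X.filter fun x' => lab x' = lab x).card : ℝ) ≤ N)
    (hJ : ∀ y ∈ Y, (((nb E X y).image lab).card : ℝ) ≤ J) :
    (ed E X Y : ℝ) ≤ C * (N * X.card / M ^ 2 + M * J * Y.card + X.card) := by
  have hmaps : ∀ a ∈ X, lab a ∈ X.image lab := fun a ha => mem_image_of_mem _ ha
  set F : L → Finset V := fun l => X.filter fun x => lab x = l with hF
  set G : L → Finset V := fun l => Y.filter fun y => l ∈ (nb E X y).image lab with hG
  have e1 : ed E X Y = ∑ l ∈ X.image lab, ed E (F l) (G l) := by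
    simp only [ed, hF]
    rw [← sum_fiberwise_of_maps_to hmaps]
    refine sum_congr rfl fun l _ => sum_congr rfl fun a ha => ?_
    obtain ⟨ha1, ha2⟩ := mem_filter.1 ha
    congr 1
    ext b
    simp only [mem_nb, hG, mem_filter, mem_image]
    exact ⟨fun hb => ⟨⟨hb.1, a, ⟨ha1, hs _ _ hb.2⟩, ha2⟩, hb.2⟩, fun hb => ⟨hb.1.1, hb.2⟩⟩
  have e2 : (X.card : ℝ) = ∑ l ∈ X.image lab, ((F l).card : ℝ) := by
    exact_mod_cast card_eq_sum_card_fiberwise hmaps
  have e3 : ∑ l ∈ X.image lab, ((G l).card : ℝ) ≤ J * Y.card := by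
    have h1 : ∑ l ∈ X.image lab, (G l).card =
        ∑ y ∈ Y, ((X.image lab).filter fun l => l ∈ (nb E X y).image lab).card := by
      simp only [hG, card_filter]
      rw [sum_comm]
    have h2 : ∑ l ∈ X.image lab, ((G l).card : ℝ) =
        ∑ y ∈ Y, (((X.image lab).filter fun l => l ∈ (nb E X y).image lab).card : ℝ) := by
      exact_mod_cast h1
    rw [h2, mul_comm, ← nsmul_eq_mul]
    refine sum_le_card_nsmul _ _ _ fun y hy => le_trans ?_ (hJ y hy)
    exact_mod_cast card_le_card fun l hl => (mem_filter.1 hl).2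
  have e4 : ∑ l ∈ X.image lab, ((F l).card : ℝ) ^ 2 ≤ N * X.card := by
    rw [e2, mul_sum]
    refine sum_le_sum fun l hl => ?_
    obtain ⟨x, hx, rfl⟩ := mem_image.1 hl
    rw [sq]
    exact mul_le_mul_of_nonneg_right (hN x hx) (Nat.cast_nonneg _)
  rw [e1]
  push_cast
  refine (sum_le_sum fun l _ => hst (F l) (G l) M hM).trans ?_
  rw [← mul_sum, sum_add_distrib, sum_add_distrib, ← sum_div, ← mul_sum, ← e2]
  refine mul_le_mul_of_nonneg_left ?_ hC
  have h1 := div_le_div_of_nonneg_right e4 (sq_nonneg M)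
  have h2 := mul_le_mul_of_nonneg_left e3 (by linarith : (0 : ℝ) ≤ M)
  nlinarith

/-- Edges at points whose fibre is small. -/
theorem ed_small_fibre {L : Type} (hst : ST E C) (hC : 0 ≤ C) (hs : ∀ a b, E a b → E b a)
    (X Y : Finset V) (lab : V → L) {N J M : ℝ} (hM : 1 ≤ M) (hN0 : 0 ≤ N)
    (hJ : ∀ y ∈ Y, (((nb E X y).image lab).card : ℝ) ≤ J) :
    (ed E (X.filter fun x => ((X.filter fun x' => lab x' = lab x).card : ℝ) ≤ N) Y : ℝ) ≤
      C * (N * X.card / M ^ 2 + M * J * Y.card + X.card) := by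
  set X0 := X.filter fun x => ((X.filter fun x' => lab x' = lab x).card : ℝ) ≤ N with hX0
  have hsub : X0 ⊆ X := filter_subset _ _
  have hc : (X0.card : ℝ) ≤ X.card := by exact_mod_cast card_le_card hsub
  refine (ed_label hst hC hs X0 Y lab (N := N) (J := J) hM (fun x hx => ?_) fun y hy => ?_).trans ?_
  · refine le_trans ?_ (mem_filter.1 hx).2
    exact_mod_cast card_le_card (filter_subset_filter _ hsub)
  · refine le_trans ?_ (hJ y hy)
    exact_mod_cast card_le_card (image_subset_image (nb_mono hsub y))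
  · refine mul_le_mul_of_nonneg_left ?_ hC
    have := div_le_div_of_nonneg_right (mul_le_mul_of_nonneg_left hc hN0) (sq_nonneg M)
    linarith

end
end Pool.Agent.Lib.MP_439fea_co.Z
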