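import Pool.Agent.Lib.MP_439fea_co.Z.Defs

/-! Places of a function field and the product formula. -/

namespace Pool.Agent.Lib.MP_439fea_co.Z
open Finset IsDedekindDomain WithZero
open scoped Classical
noncomputable section

/-- the place that belongs to a valuation -/
def plcOf {L : Type} [Field L] (v : Valuation L ℤᵐ⁰) (h1 : ∀ n : ℕ, n ≠ 0 → v n = 1)
    (h2 : ∃ p, v p = exp (-1 : ℤ)) : Pl L where
  ord x := -log (v x)
  mul x y hx hy := by
    rw [map_mul, log_mul ((map_ne_zero v).2 hx) ((map_ne_zero v).2 hy), neg_add]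
  add x y hx hy h := by
    rw [← neg_sup, neg_le_neg_iff]
    rcases le_max_iff.1 (v.map_add x y) with h3 | h3
    · exact le_sup_of_le_left ((log_le_log ((map_ne_zero v).2 h) ((map_ne_zero v).2 hx)).2 h3)
    · exact le_sup_of_le_right ((log_le_log ((map_ne_zero v).2 h) ((map_ne_zero v).2 hy)).2 h3)
  nat n hn := by rw [h1 n hn, log_one, neg_zero]
  unif := h2.imp fun p hp => ⟨fun h => exp_ne_zero (by rw [← hp, h, map_zero]), by
    rw [hp, log_exp, neg_neg]⟩

/-- the places above a principal ideal domain -/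
theorem plc_ring (R F L : Type) [CommRing R] [IsDomain R] [IsPrincipalIdealRing R] [Field F]
    [Algebra R F] [IsFractionRing R F] [Field L] [Algebra F L] [Algebra R L] [IsScalarTower R F L]
    [FiniteDimensional F L] [CharZero F] (D : F → ℤ)
    (hm : ∀ x y, x ≠ 0 → y ≠ 0 → D (x * y) = D x + D y)
    (hu : ∀ r : R, IsUnit r → D (algebraMap R F r) = 0)
    (hp : ∀ r : R, r ≠ 0 → ¬IsUnit r → 0 < D (algebraMap R F r))
    (hn : ∀ n : ℕ, n ≠ 0 → IsUnit (n : R)) :
    ∃ (I : Type) (pl : I → Pl L) (wt : I → ℝ), (∀ i, 0 < wt i) ∧ ∀ x : L, x ≠ 0 →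
      {i | (pl i).ord x ≠ 0}.Finite ∧ ∀ S : Finset I, (∀ i, (pl i).ord x ≠ 0 → i ∈ S) →
        ∑ i ∈ S, wt i * ((pl i).ord x : ℝ) = D (Algebra.norm F x) := by
  let A := integralClosure R L
  have : IsDedekindDomain A := integralClosure.isDedekindDomain R F L
  have : IsFractionRing A L := integralClosure.isFractionRing_of_finite_extension F L
  have : Module.Finite R A := IsIntegralClosure.finite R F L A
  have hF := IsFractionRing.injective R F
  have : FaithfulSMul R L := (faithfulSMul_iff_algebraMap_injective R L).2 (by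
    rw [IsScalarTower.algebraMap_eq R F L]
    exact (algebraMap F L).injective.comp hF)
  let δ : Ideal R → ℤ := fun J => D (algebraMap R F (Submodule.IsPrincipal.generator J))
  have hδ : ∀ r : R, r ≠ 0 → δ (Ideal.span {r}) = D (algebraMap R F r) := fun r hr => by
    obtain ⟨u, hu'⟩ := Ideal.span_singleton_eq_span_singleton.1
      (Ideal.span_singleton_generator (Ideal.span {r})).symm
    simp only [δ]
    rw [← hu', map_mul, hm _ _ ((map_ne_zero_iff _ hF).2 hr) ((map_ne_zero_iff _ hF).2 u.ne_zero),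
      hu _ u.isUnit, add_zero]
  have hg : ∀ J : Ideal R, J ≠ 0 → Submodule.IsPrincipal.generator J ≠ 0 := fun J hJ h =>
    hJ ((Submodule.IsPrincipal.eq_bot_iff_generator_eq_zero J).2 h)
  have hδm : ∀ J J' : Ideal R, J ≠ 0 → J' ≠ 0 → δ (J * J') = δ J + δ J' := fun J J' h h' => by
    conv_lhs => rw [← Ideal.span_singleton_generator J, ← Ideal.span_singleton_generator J',
      Ideal.span_singleton_mul_span_singleton]
    rw [hδ _ (mul_ne_zero (hg J h) (hg J' h')), map_mul, hm _ _ ((map_ne_zero_iff _ hF).2 (hg J h))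
      ((map_ne_zero_iff _ hF).2 (hg J' h'))]
  have hδ1 : δ 1 = 0 := by
    have := hδm 1 1 one_ne_zero one_ne_zero
    rw [mul_one] at this
    omega
  have hN : ∀ J : Ideal A, J ≠ 0 → Ideal.relNorm R J ≠ 0 := fun J h h' =>
    h (Ideal.relNorm_eq_bot_iff.1 h')
  have hpow : ∀ (J : Ideal A) (n : ℕ), J ≠ 0 →
      δ (Ideal.relNorm R (J ^ n)) = n * δ (Ideal.relNorm R J) := fun J n h => by
    induction n with
    | zero => rw [pow_zero, map_one, hδ1, Nat.cast_zero, zero_mul]
    | succ n ih => rw [pow_succ, map_mul, hδm _ _ (hN _ (pow_ne_zero n h)) (hN _ h), ih,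
        Nat.cast_succ, add_one_mul]
  have hprod : ∀ (c : HeightOneSpectrum A → ℕ) (S : Finset (HeightOneSpectrum A)),
      δ (Ideal.relNorm R (∏ v ∈ S, v.asIdeal ^ c v)) =
        ∑ v ∈ S, c v * δ (Ideal.relNorm R v.asIdeal) := fun c S => by
    induction S using Finset.induction_on with
    | empty => rw [prod_empty, map_one, hδ1, sum_empty]
    | insert v S hv ih => rw [prod_insert hv, sum_insert hv, map_mul,
        hδm _ _ (hN _ (pow_ne_zero _ v.ne_bot)) (hN _ (prod_ne_zero_iff.2 fun w _ =>
          pow_ne_zero _ w.ne_bot)), ih, hpow _ _ v.ne_bot]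
  let pl : HeightOneSpectrum A → Pl L := fun v => plcOf (v.valuation L) (fun n h => by
    rw [← map_natCast (algebraMap A L), v.valuation_eq_one_iff_notMem]
    exact fun h' => v.isPrime.ne_top (Ideal.eq_top_of_isUnit_mem _ h'
      (map_natCast (algebraMap R A) n ▸ (hn n h).map _))) (v.valuation_exists_uniformizer L)
  have ho : ∀ (a : A) (v : HeightOneSpectrum A), a ≠ 0 → (pl v).ord (algebraMap A L a) =
      ((Associates.mk v.asIdeal).count (Associates.mk (Ideal.span {a})).factors : ℕ) :=
    fun a v h => by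
    change -log (v.valuation L (algebraMap A L a)) = _
    rw [v.valuation_of_algebraMap, v.intValuation_if_neg h, log_exp, neg_neg]
  have hA : ∀ a : A, a ≠ 0 → {v | (pl v).ord (algebraMap A L a) ≠ 0}.Finite ∧
      ∀ S : Finset (HeightOneSpectrum A), (∀ v, (pl v).ord (algebraMap A L a) ≠ 0 → v ∈ S) →
        ∑ v ∈ S, δ (Ideal.relNorm R v.asIdeal) * (pl v).ord (algebraMap A L a) =
          D (Algebra.norm F (algebraMap A L a)) := fun a h => by
    have h1 : Ideal.span {a} ≠ 0 := Ideal.span_singleton_eq_bot.not.2 h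
    simp only [ho a _ h]
    refine ⟨Filter.eventually_cofinite.1 (Associates.finite_factors h1), fun S hS => ?_⟩
    have h2 := Ideal.finprod_heightOneSpectrum_factorization h1
    rw [finprod_eq_prod_of_mulSupport_subset (s := S) _ fun v hv => hS v fun h3 => hv (by
      rw [HeightOneSpectrum.maxPowDividing, Int.natCast_eq_zero.1 h3, pow_zero])] at h2
    rw [← Algebra.algebraMap_intNorm (A := R), ← hδ _ fun h3 => hN _ h1 (by
      rw [Ideal.relNorm_singleton, h3]
      exact Ideal.span_singleton_eq_bot.2 rfl), ← Ideal.relNorm_singleton]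
    conv_rhs => rw [← h2]
    exact (sum_congr rfl fun v _ => mul_comm _ _).trans (hprod _ S).symm
  refine ⟨_, pl, fun v => δ (Ideal.relNorm R v.asIdeal), fun v => Int.cast_pos.2
    (hp _ (hg _ (hN _ v.ne_bot)) fun h => v.isPrime.ne_top ?_), fun x hx => ?_⟩
  · exact Ideal.eq_top_of_isUnit_mem _ (Ideal.relNorm_le_comap R _
      (Submodule.IsPrincipal.generator_mem _)) (h.map _)
  obtain ⟨a, b, hb, rfl⟩ := IsFractionRing.div_surjective (A := A) x
  have hb0 := nonZeroDivisors.ne_zero hb
  have ha0 : a ≠ 0 := fun h => hx (by rw [h, map_zero, zero_div])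
  have hb1 : algebraMap A L b ≠ 0 := (map_ne_zero_iff _ (IsFractionRing.injective A L)).2 hb0
  have e := div_mul_cancel₀ (algebraMap A L a) hb1
  generalize algebraMap A L a / algebraMap A L b = x at hx e
  have e1 : ∀ v, (pl v).ord x = (pl v).ord (algebraMap A L a) - (pl v).ord (algebraMap A L b) :=
    fun v => by rw [← e, (pl v).mul _ _ hx hb1, add_sub_cancel_right]
  obtain ⟨f1, g1⟩ := hA a ha0
  obtain ⟨f2, g2⟩ := hA b hb0
  refine ⟨(f1.union f2).subset fun v hv => by_contra fun h => hv ?_, fun S hS => ?_⟩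
  · simp only [Set.mem_union, Set.mem_ofPred_eq, not_or, not_not] at h
    rw [e1, h.1, h.2, sub_zero]
  · have e2 := g1 (S ∪ (f1.union f2).toFinset) fun v hv =>
      mem_union_right _ ((Set.Finite.mem_toFinset _).2 (Or.inl hv))
    have e3 := g2 (S ∪ (f1.union f2).toFinset) fun v hv =>
      mem_union_right _ ((Set.Finite.mem_toFinset _).2 (Or.inr hv))
    have e4 : D (Algebra.norm F x) = D (Algebra.norm F (algebraMap A L a)) -
        D (Algebra.norm F (algebraMap A L b)) := by
      rw [← e, map_mul, hm _ _ (Algebra.norm_ne_zero_iff.2 hx) (Algebra.norm_ne_zero_iff.2 hb1),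
        add_sub_cancel_right]
    rw [e4, ← e2, ← e3, ← sum_sub_distrib, sum_subset (subset_union_left (s₂ :=
      (f1.union f2).toFinset)) fun v _ hv => by
        rw [not_not.1 (mt (hS v) hv), Int.cast_zero, mul_zero]]
    push_cast
    exact sum_congr rfl fun v _ => by rw [e1]; push_cast; ring

/-- the places of a finite extension of a field of rational functions -/
theorem plc_rat (k L : Type) [Field k] [CharZero k] [Field L] [Algebra (RatFunc k) L]
    [FiniteDimensional (RatFunc k) L] :
    ∃ (P : Places L) (i : P.I), (P.pl i).ord (algebraMap (RatFunc k) L RatFunc.X) ≠ 0 := by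
  have : CharZero (RatFunc k) := charZero_of_injective_algebraMap (algebraMap k _).injective
  let : Algebra (Polynomial k) L :=
    ((algebraMap (RatFunc k) L).comp (algebraMap (Polynomial k) _)).toAlgebra
  have : IsScalarTower (Polynomial k) (RatFunc k) L := IsScalarTower.of_algebraMap_eq fun _ => rfl
  obtain ⟨I, pl, wt, h0, h1⟩ := plc_ring (Polynomial k) (RatFunc k) L RatFunc.intDegree
    (fun _ _ => RatFunc.intDegree_mul)
    (fun r h => by rw [RatFunc.intDegree_polynomial, Polynomial.natDegree_eq_zero_of_isUnit h]; rfl)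
    (fun r h h' => by
      rw [RatFunc.intDegree_polynomial]
      exact Int.natCast_pos.2 (Polynomial.natDegree_pos_iff_degree_pos.2
        (Polynomial.degree_pos_of_ne_zero_of_nonunit h h')))
    fun n h => map_natCast (algebraMap k (Polynomial k)) n ▸
      (Nat.cast_ne_zero.2 h : (n : k) ≠ 0).isUnit.map _
  let v := RatFunc.inftyValuation k
  have hv : ∀ x, x ≠ 0 → v x = exp x.intDegree := fun x => RatFunc.inftyValuation_of_nonzero k
  have hi := Valuation.integer.integers v
  have : IsPrincipalIdealRing v.valuationSubring := v.valuationSubring_isPrincipalIdealRing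
  have hu : ∀ r : v.valuationSubring, IsUnit r ↔ v r = 1 := fun r =>
    (Valuation.Integers.isUnit_iff_valuation_eq_one (x := r) hi)
  obtain ⟨I', pl', wt', h0', h1'⟩ := plc_ring v.valuationSubring (RatFunc k) L
    (fun x => -x.intDegree) (fun _ _ h h' => by rw [RatFunc.intDegree_mul h h', neg_add])
    (fun r h => by
      have h2 := (hu r).1 h
      rw [hv _ fun h3 => h.ne_zero (Subtype.ext h3), exp_eq_one] at h2
      exact neg_eq_zero.2 h2)
    (fun r h h' => by
      have h2 : v r < 1 := lt_of_le_of_ne r.2 (mt (hu r).2 h')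
      rw [hv _ fun h3 => h (Subtype.ext h3), ← exp_zero, exp_lt_exp] at h2
      exact neg_pos.2 h2)
    fun n h => (hu _).2 (by
      rw [← RatFunc.inftyValuation.C k (Nat.cast_ne_zero.2 h : (n : k) ≠ 0), map_natCast]
      rfl)
  have hX : algebraMap (RatFunc k) L RatFunc.X ≠ 0 := (map_ne_zero _).2 RatFunc.X_ne_zero
  obtain ⟨i, hi⟩ : ∃ i, (pl i).ord (algebraMap (RatFunc k) L RatFunc.X) ≠ 0 := by
    by_contra! h
    have h2 := (h1 _ hX).2 ∅ fun i hi => (hi (h i)).elim
    have h3 : ∀ n : ℕ, (RatFunc.X ^ n : RatFunc k).intDegree = n := fun n => by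
      rw [← RatFunc.algebraMap_X, ← map_pow, RatFunc.intDegree_polynomial,
        Polynomial.natDegree_X_pow]
    rw [sum_empty, Algebra.norm_algebraMap, h3] at h2
    exact Module.finrank_pos.ne' (mod_cast h2.symm)
  refine ⟨⟨I ⊕ I', Sum.elim pl pl', Sum.elim wt wt', Sum.rec h0 h0', fun x hx => ?_,
    fun x hx S hS => ?_⟩, Sum.inl i, hi⟩
  · refine (((h1 x hx).1.image Sum.inl).union ((h1' x hx).1.image Sum.inr)).subset ?_
    rintro (j | j) hj
    exacts [Or.inl ⟨j, hj, rfl⟩, Or.inr ⟨j, hj, rfl⟩]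
  · rw [← S.toLeft_disjSum_toRight, sum_disjSum]
    simp only [Sum.elim_inl, Sum.elim_inr]
    rw [(h1 x hx).2 _ fun j hj => mem_toLeft.2 (hS _ hj),
      (h1' x hx).2 _ fun j hj => mem_toRight.2 (hS _ hj), Int.cast_neg, add_neg_cancel]

/-- transport of a place along an isomorphism -/
def Pl.map {L L' : Type} [Field L] [Field L'] (v : Pl L) (e : L' ≃+* L) : Pl L' where
  ord x := v.ord (e x)
  mul x y hx hy := by rw [map_mul, v.mul _ _ ((map_ne_zero e).2 hx) ((map_ne_zero e).2 hy)]
  add x y hx hy h := by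
    rw [map_add]
    exact v.add _ _ ((map_ne_zero e).2 hx) ((map_ne_zero e).2 hy)
      (by rw [← map_add]; exact (map_ne_zero e).2 h)
  nat n hn := by rw [map_natCast, v.nat n hn]
  unif := by
    obtain ⟨p, h, h'⟩ := v.unif
    exact ⟨e.symm p, (map_ne_zero _).2 h, by rw [e.apply_symm_apply, h']⟩

theorem plc_sub {k F L O : Type} [Field k] [CharZero k] [Field F] [Field L] [Field O]
    [Algebra F L] [FiniteDimensional F L] (e : RatFunc k ≃+* F) (φ : L →+* O) :
    ∃ (P : Places φ.fieldRange) (i : P.I),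
      (P.pl i).ord ⟨φ (algebraMap F L (e RatFunc.X)), _, rfl⟩ ≠ 0 := by
  let : Algebra (RatFunc k) F := (e : RatFunc k →+* F).toAlgebra
  let : Algebra (RatFunc k) L := ((algebraMap F L).comp (algebraMap (RatFunc k) F)).toAlgebra
  have : IsScalarTower (RatFunc k) F L := IsScalarTower.of_algebraMap_eq fun _ => rfl
  have : Module.Finite (RatFunc k) F := .of_surjective (Algebra.linearMap _ _) e.surjective
  have : FiniteDimensional (RatFunc k) L := Module.Finite.trans F L
  obtain ⟨P, j, hj⟩ := plc_rat k L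
  let g := (RingEquiv.ofBijective _ φ.rangeRestrictField_bijective).symm
  refine ⟨⟨P.I, fun i => (P.pl i).map g, P.wt, P.pos, fun x hx => P.fin _ ((map_ne_zero g).2 hx),
    fun x hx => P.prod _ ((map_ne_zero g).2 hx)⟩, j, fun h => hj ?_⟩
  rw [← g.apply_symm_apply (algebraMap _ _ _)]
  exact h

theorem plc_base {O : Type} [Field O] [CharZero O] {r : O} (hr : Transcendental ℚ r) :
    ∃ k : IntermediateField ℚ O, Transcendental k r ∧
      ∀ x : O, IsIntegral (IntermediateField.adjoin k {r}) x := by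
  obtain ⟨t, ht, hb⟩ := exists_isTranscendenceBasis_superset (R := ℚ) (s := {r})
    ((algebraicIndependent_singleton_iff (⟨r, rfl⟩ : ({r} : Set O))).2 hr)
  let i : t := ⟨r, ht rfl⟩
  refine ⟨IntermediateField.adjoin ℚ (((↑) : t → O) '' {i}ᶜ),
    IntermediateField.transcendental_adjoin_iff.2
      (hb.1.transcendental_adjoin (s := {i}ᶜ) (i := i) fun h => h rfl), fun x => ?_⟩
  generalize hk : IntermediateField.adjoin ℚ (((↑) : t → O) '' {i}ᶜ) = k
  have h2 : ∀ y ∈ IntermediateField.adjoin ℚ (Set.range ((↑) : t → O)),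
      y ∈ IntermediateField.adjoin k {r} := by
    refine (IntermediateField.adjoin_le_iff
      (T := (IntermediateField.adjoin k {r}).restrictScalars ℚ)).2 ?_
    rintro _ ⟨j, rfl⟩
    rcases eq_or_ne j i with rfl | h
    · exact IntermediateField.mem_adjoin_simple_self k r
    · exact IntermediateField.algebraMap_mem _
        (⟨j, hk ▸ IntermediateField.subset_adjoin _ _ ⟨j, h, rfl⟩⟩ : k)
  exact IsIntegral.map_of_comp_eq ((algebraMap (IntermediateField.adjoin ℚ
    (Set.range ((↑) : t → O))) O).codRestrict (IntermediateField.adjoin k {r}) fun y => h2 y y.2)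
    (RingHom.id O) (RingHom.ext fun _ => rfl) (hb.isAlgebraic_field.isAlgebraic x).isIntegral

theorem placesExist (O : Type) [Field O] [CharZero O] : PlacesExist O := fun S r hr => by
  obtain ⟨k, h1, h3⟩ := plc_base hr
  let L := IntermediateField.adjoin (IntermediateField.adjoin k {r}) (S : Set O)
  have : FiniteDimensional _ L := IntermediateField.finiteDimensional_adjoin fun x _ => h3 x
  obtain ⟨P, j, hj⟩ := plc_sub (RatFunc.algEquivOfTranscendental r h1).toRingEquiv (algebraMap L O)
  have h4 : algebraMap L O (algebraMap _ L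
      ((RatFunc.algEquivOfTranscendental r h1).toRingEquiv RatFunc.X)) = r :=
    RatFunc.algEquivOfTranscendental_X r h1
  exact ⟨_, P, fun x hx => ⟨⟨x, IntermediateField.subset_adjoin _ _ hx⟩, rfl⟩, ⟨_, h4⟩, j,
    fun h => hj ((congrArg _ (Subtype.ext h4)).trans h)⟩

end
end Pool.Agent.Lib.MP_439fea_co.Z
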