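import Pool.Agent.Lib.MP_439fea_co.Z.Defs

namespace Pool.Agent.Lib.MP_439fea_co.Z
open Finset
open scoped Classical
noncomputable section

variable {V : Type}

theorem mem_nb {E : V → V → Prop} {Y : Finset V} {a b : V} : b ∈ nb E Y a ↔ b ∈ Y ∧ E a b := by
  simp [nb]

theorem ed_comm {E : V → V → Prop} (hs : ∀ a b, E a b → E b a) (X Y : Finset V) :
    ed E X Y = ed E Y X := by
  simp only [ed, nb, card_filter]
  rw [sum_comm]
  refine sum_congr rfl fun b _ => sum_congr rfl fun a _ => ?_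
  have : E a b ↔ E b a := ⟨hs _ _, hs _ _⟩
  simp [this]

/-- Cherry count: two vertices have at most one common neighbour. -/
theorem cherry_le {E : V → V → Prop}
    (hk : ∀ a a' b b', a ≠ a' → E a b → E a' b → E a b' → E a' b' → b = b') (A B : Finset V) :
    ∑ a ∈ A, ((nb E B a).card : ℝ) * ((nb E B a).card - 1) ≤ (B.card : ℝ) ^ 2 := by
  have h1 : ∑ a ∈ A, (nb E B a).offDiag.card ≤ (B ×ˢ B).card := by
    rw [← card_biUnion]
    · refine card_le_card fun p hp => ?_
      obtain ⟨a, -, ha⟩ := mem_biUnion.1 hp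
      obtain ⟨h1, h2, -⟩ := mem_offDiag.1 ha
      exact mem_product.2 ⟨(mem_nb.1 h1).1, (mem_nb.1 h2).1⟩
    · intro a _ a' _ hne
      refine disjoint_left.2 fun p hp hp' => ?_
      obtain ⟨h1, h2, h3⟩ := mem_offDiag.1 hp
      obtain ⟨h4, h5, -⟩ := mem_offDiag.1 hp'
      exact h3 (hk a a' _ _ hne (mem_nb.1 h1).2 (mem_nb.1 h4).2 (mem_nb.1 h2).2 (mem_nb.1 h5).2)
  have h2 : ((∑ a ∈ A, (nb E B a).offDiag.card : ℕ) : ℝ) ≤ ((B ×ˢ B).card : ℝ) := by exact_mod_cast h1
  rw [card_product] at h2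
  push_cast at h2
  refine le_trans (le_of_eq (sum_congr rfl fun a _ => ?_)) (h2.trans (le_of_eq (by ring)))
  rw [offDiag_card, Nat.cast_sub (Nat.le_mul_self _)]
  push_cast
  ring

/-- Trivial bound with a free parameter. -/
theorem ed_le_param {E : V → V → Prop}
    (hk : ∀ a a' b b', a ≠ a' → E a b → E a' b → E a b' → E a' b' → b = b') (A B : Finset V)
    {l : ℝ} (hl : 0 < l) :
    (ed E A B : ℝ) ≤ A.card * (1 + l) + (B.card : ℝ) ^ 2 / l := by
  have h := cherry_le hk A B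
  have h1 : (ed E A B : ℝ) ≤
      ∑ a ∈ A, ((1 + l) + ((nb E B a).card : ℝ) * ((nb E B a).card - 1) / l) := by
    simp only [ed]
    push_cast
    refine sum_le_sum fun a _ => ?_
    rcases Nat.eq_zero_or_pos (nb E B a).card with h0 | h0
    · simp [h0]; linarith
    · have h1 : (1 : ℝ) ≤ (nb E B a).card := by exact_mod_cast h0
      set x : ℝ := ((nb E B a).card : ℝ)
      rcases le_total x (1 + l) with h2 | h2
      · have : 0 ≤ x * (x - 1) / l := by
          apply div_nonneg _ hl.le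
          nlinarith
        linarith
      · have : x ≤ x * (x - 1) / l := by
          rw [le_div_iff₀ hl]
          nlinarith
        linarith
  rw [sum_add_distrib, ← sum_div, sum_const, nsmul_eq_mul] at h1
  have := div_le_div_of_nonneg_right h hl.le
  linarith

theorem ed_cut {E : V → V → Prop} (h : PL E) (S T : Finset V) (q : ℕ) (hq : 1 ≤ q) (M : ℝ)
    (hM : 0 < M) (hqM : (q : ℝ) ≤ M ^ 2) :
    (ed E T S : ℝ) ≤ 129 * ((S.card : ℝ) ^ 2 / q) + 512 * q + 5 * M * T.card := by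
  obtain ⟨lab, hlab, hcell⟩ := h.cut T S q hq
  have hq0 : (0 : ℝ) < q := by exact_mod_cast hq
  set lo := T.filter fun a => (nb E S a).card ≤ q with hlo
  set hi := T.filter fun a => ¬ (nb E S a).card ≤ q with hhi
  have hsplit : ed E T S = ed E lo S + ed E hi S := by
    simp only [ed, hlo, hhi]
    rw [sum_filter_add_sum_filter_not]
  have hH : (ed E hi S : ℝ) ≤ (S.card : ℝ) ^ 2 / q := by
    refine le_trans ?_ (div_le_div_of_nonneg_right (cherry_le h.k22 hi S) hq0.le)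
    rw [sum_div]
    simp only [ed]
    push_cast
    refine sum_le_sum fun a ha => ?_
    have h1 : q + 1 ≤ (nb E S a).card := not_le.1 (mem_filter.1 ha).2
    have h2 : (q : ℝ) + 1 ≤ (nb E S a).card := by exact_mod_cast h1
    rw [le_div_iff₀ hq0]
    nlinarith
  have hcl : ∀ i, (ed E (lo.filter fun a => lab a = i) S : ℝ) ≤
      4 * q + 5 * M * (lo.filter fun a => lab a = i).card := by
    intro i
    set Ti := lo.filter fun a => lab a = i with hTi
    set N := S.filter fun b => ∃ a ∈ T, lab a = i ∧ (nb E S a).card ≤ q ∧ E a b with hN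
    have hN4 : (N.card : ℝ) ≤ 4 * q := by exact_mod_cast hcell i
    have e1 : ed E Ti S = ed E Ti N := by
      simp only [ed]
      refine sum_congr rfl fun a ha => ?_
      congr 1
      ext b
      obtain ⟨ha1, ha2⟩ := mem_filter.1 ha
      obtain ⟨ha3, ha4⟩ := mem_filter.1 ha1
      simp only [mem_nb, hN, mem_filter]
      exact ⟨fun hb => ⟨⟨hb.1, a, ha3, ha2, ha4, hb.2⟩, hb.2⟩, fun hb => ⟨hb.1.1, hb.2⟩⟩
    rcases Nat.eq_zero_or_pos Ti.card with h0 | h0
    · rw [card_eq_zero.1 h0]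
      simp [ed]
    · have ht : (0 : ℝ) < Ti.card := by exact_mod_cast h0
      rw [e1, ed_comm h.symm]
      have h1 := ed_le_param h.k22 N Ti (l := Ti.card / M) (div_pos ht hM)
      have h2 : (Ti.card : ℝ) ^ 2 / (Ti.card / M) = M * Ti.card := by field_simp
      have h3 : (N.card : ℝ) * (1 + Ti.card / M) ≤ 4 * q * (1 + Ti.card / M) :=
        mul_le_mul_of_nonneg_right hN4 (by positivity)
      have h4 : (q : ℝ) * (Ti.card / M) ≤ M * Ti.card := by
        calc (q : ℝ) * (Ti.card / M) ≤ M ^ 2 * (Ti.card / M) :=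
              mul_le_mul_of_nonneg_right hqM (by positivity)
          _ = M * Ti.card := by field_simp
      nlinarith
  have hmaps : ∀ a ∈ lo, lab a ∈ T.image lab := fun a ha =>
    mem_image_of_mem _ (mem_filter.1 ha).1
  have hL : (ed E lo S : ℝ) ≤ (T.image lab).card * (4 * q) + 5 * M * lo.card := by
    have e1 : ed E lo S = ∑ i ∈ T.image lab, ed E (lo.filter fun a => lab a = i) S := by
      simp only [ed]
      rw [sum_fiberwise_of_maps_to hmaps]
    have e2 : lo.card = ∑ i ∈ T.image lab, (lo.filter fun a => lab a = i).card :=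
      card_eq_sum_card_fiberwise hmaps
    rw [e1, e2]
    push_cast
    refine (sum_le_sum fun i _ => hcl i).trans (le_of_eq ?_)
    rw [sum_add_distrib, sum_const, nsmul_eq_mul, ← mul_sum]
  have hlabR : ((T.image lab).card : ℝ) ≤ 16 * ((S.card : ℝ) / q + 2) ^ 2 := by
    have h1 : ((T.image lab).card : ℝ) ≤ ((16 * (S.card / q + 2) ^ 2 : ℕ) : ℝ) := by
      exact_mod_cast hlab
    push_cast at h1
    have h2 : ((S.card / q : ℕ) : ℝ) ≤ (S.card : ℝ) / q := Nat.cast_div_le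
    have h3 : (0 : ℝ) ≤ ((S.card / q : ℕ) : ℝ) := Nat.cast_nonneg _
    nlinarith
  have hloT : (lo.card : ℝ) ≤ T.card := by exact_mod_cast card_filter_le _ _
  have h5 : ((T.image lab).card : ℝ) * (4 * q) ≤ 128 * ((S.card : ℝ) ^ 2 / q) + 512 * q := by
    have h6 : ((S.card : ℝ) / q + 2) ^ 2 ≤ 2 * ((S.card : ℝ) / q) ^ 2 + 8 := by
      nlinarith [sq_nonneg ((S.card : ℝ) / q - 2)]
    have h7 : ((S.card : ℝ) / q) ^ 2 * q = (S.card : ℝ) ^ 2 / q := by field_simp
    calc ((T.image lab).card : ℝ) * (4 * q) ≤ 16 * (2 * ((S.card : ℝ) / q) ^ 2 + 8) * (4 * q) :=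
          mul_le_mul_of_nonneg_right (by linarith) (by positivity)
      _ = 128 * (((S.card : ℝ) / q) ^ 2 * q) + 512 * q := by ring
      _ = _ := by rw [h7]
  have h8 : 5 * M * (lo.card : ℝ) ≤ 5 * M * T.card := mul_le_mul_of_nonneg_left hloT (by positivity)
  rw [hsplit]
  push_cast
  linarith

theorem st_700 {E : V → V → Prop} (h : PL E) : ST E 700 := by
  intro X Y M hM
  have hM0 : 0 < M := by linarith
  rcases Nat.eq_zero_or_pos X.card with h0 | h0
  · rw [card_eq_zero.1 h0]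
    simp only [ed, sum_empty, card_empty]
    push_cast
    positivity
  have hX : (1 : ℝ) ≤ X.card := by exact_mod_cast h0
  have hM2 : 1 ≤ M ^ 2 := by nlinarith
  have hf1 : 1 ≤ ⌊M ^ 2⌋₊ := Nat.le_floor (by exact_mod_cast hM2)
  have hf2 : (⌊M ^ 2⌋₊ : ℝ) ≤ M ^ 2 := Nat.floor_le (by linarith)
  have hf3 : M ^ 2 < ⌊M ^ 2⌋₊ + 1 := Nat.lt_floor_add_one _
  have hf4 : (1 : ℝ) ≤ ⌊M ^ 2⌋₊ := by exact_mod_cast hf1
  have hY : (0 : ℝ) ≤ M * Y.card := by positivity
  have hD : (0 : ℝ) ≤ (X.card : ℝ) ^ 2 / M ^ 2 := by positivity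
  rw [ed_comm h.symm]
  rcases le_total ⌊M ^ 2⌋₊ X.card with hc | hc
  · have h1 := ed_cut h X Y _ hf1 M hM0 hf2
    have h2 : (⌊M ^ 2⌋₊ : ℝ) ≤ X.card := by exact_mod_cast hc
    have h3 : (X.card : ℝ) ^ 2 / ⌊M ^ 2⌋₊ ≤ 2 * ((X.card : ℝ) ^ 2 / M ^ 2) := by
      rw [← mul_div_assoc, div_le_div_iff₀ (by linarith) (by linarith)]
      nlinarith [sq_nonneg (X.card : ℝ)]
    nlinarith
  · have h2 : (X.card : ℝ) ≤ ⌊M ^ 2⌋₊ := by exact_mod_cast hc
    have h1 := ed_cut h X Y _ h0 M hM0 (h2.trans hf2)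
    have h3 : (X.card : ℝ) ^ 2 / X.card = X.card := by field_simp
    rw [h3] at h1
    nlinarith

theorem st_of_pl : ∃ C : ℝ, 1 ≤ C ∧ ∀ (V : Type) (E : V → V → Prop), PL E → ST E C :=
  ⟨700, by norm_num, fun _ _ h => st_700 h⟩

end
end Pool.Agent.Lib.MP_439fea_co.Z
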