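import Mathlib

namespace Pool.Agent.Lib.MP_439fea_co.Z
open Finset
open scoped Classical
noncomputable section

variable {V : Type}

/-- Neighbours of `a` inside `Y`. -/
def nb (E : V → V → Prop) (Y : Finset V) (a : V) : Finset V := Y.filter (E a)

/-- Number of adjacent pairs in `X × Y`. -/
def ed (E : V → V → Prop) (X Y : Finset V) : ℕ := ∑ a ∈ X, (nb E Y a).card

/-- Incidence bound with a free scale `M`. -/
def ST (E : V → V → Prop) (C : ℝ) : Prop :=
  ∀ (X Y : Finset V) (M : ℝ), 1 ≤ M →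
    (ed E X Y : ℝ) ≤ C * ((X.card : ℝ) ^ 2 / M ^ 2 + M * Y.card + X.card)

/-- Graphs with at most one common neighbour per pair and with cuttings. -/
structure PL (E : V → V → Prop) : Prop where
  symm : ∀ a b, E a b → E b a
  k22 : ∀ a a' b b', a ≠ a' → E a b → E a' b → E a b' → E a' b' → b = b'
  cut : ∀ (X Y : Finset V) (q : ℕ), 1 ≤ q → ∃ lab : V → ℕ,
    (X.image lab).card ≤ 16 * (Y.card / q + 2) ^ 2 ∧
    ∀ i, (Y.filter fun b => ∃ a ∈ X, lab a = i ∧ (nb E Y a).card ≤ q ∧ E a b).card ≤ 4 * q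

/-- Almost regular edge expander on `d ^ 3` vertices with degrees of order `d`. -/
structure Host [Fintype V] (E : V → V → Prop) (C κ K d : ℝ) : Prop where
  pl : PL E
  st : ST E C
  dpos : 0 < d
  hd : d ^ 3 = Fintype.card V
  lo : ∀ a, κ * d ≤ (nb E univ a).card
  hi : ∀ a, ((nb E univ a).card : ℝ) ≤ K * d
  ex : ∀ T : Finset V, 2 * T.card ≤ Fintype.card V → κ * d * T.card ≤ ed E T Tᶜ

/-- Realisation of the graph by unit distances, in the coordinates `z` and `w`. -/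
structure Rl {L : Type} [Field L] (E : V → V → Prop) (z w : V → L) : Prop where
  zinj : Function.Injective z
  winj : Function.Injective w
  adj : ∀ a b, E a b ↔ (z a - z b) * (w a - w b) = 1

/-- A discrete valuation of residue characteristic zero. -/
structure Pl (L : Type) [Field L] where
  ord : L → ℤ
  mul : ∀ x y, x ≠ 0 → y ≠ 0 → ord (x * y) = ord x + ord y
  add : ∀ x y, x ≠ 0 → y ≠ 0 → x + y ≠ 0 → min (ord x) (ord y) ≤ ord (x + y)
  nat : ∀ n : ℕ, n ≠ 0 → ord (n : L) = 0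
  unif : ∃ p : L, p ≠ 0 ∧ ord p = 1

/-- `x` has order at least `s`. -/
def Pl.Ge {L : Type} [Field L] (v : Pl L) (x : L) (s : ℤ) : Prop := x = 0 ∨ s ≤ v.ord x

/-- A family of places with a product formula. -/
structure Places (L : Type) [Field L] where
  I : Type
  pl : I → Pl L
  wt : I → ℝ
  pos : ∀ i, 0 < wt i
  fin : ∀ x : L, x ≠ 0 → {i | (pl i).ord x ≠ 0}.Finite
  prod : ∀ x : L, x ≠ 0 → ∀ S : Finset I, (∀ i, (pl i).ord x ≠ 0 → i ∈ S) →
    ∑ i ∈ S, wt i * ((pl i).ord x : ℝ) = 0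

/-- A height function on a subfield. -/
structure Ht (O : Type) [Field O] where
  dom : Subfield O
  h : O → ℝ
  nonneg : ∀ x, 0 ≤ h x
  zero : h 0 = 0
  one : h 1 = 0
  neg : ∀ x ∈ dom, h (-x) = h x
  inv : ∀ x ∈ dom, h x⁻¹ = h x
  add : ∀ x ∈ dom, ∀ y ∈ dom, h (x + y) ≤ h x + h y
  mul : ∀ x ∈ dom, ∀ y ∈ dom, h (x * y) ≤ h x + h y
  root : ∀ (n : ℕ) (c : ℕ → O) (x : O), x ∈ dom → (∀ i < n, c i ∈ dom) →
    x ^ n + ∑ i ∈ range n, c i * x ^ i = 0 → h x ≤ ∑ i ∈ range n, h (c i)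

/-- Cross ratio of `a` with three base values. -/
def cr {O : Type} [Field O] (u : Fin 3 → O) (a : O) : O :=
  (a - u 0) * (u 1 - u 2) / ((a - u 2) * (u 1 - u 0))

/-- Value of a polynomial of bidegree at most `D`. -/
def bev {O : Type} [Field O] (D : ℕ) (c : ℕ → ℕ → O) (x y : O) : O :=
  ∑ i ∈ range (D + 1), ∑ k ∈ range (D + 1), c i k * x ^ i * y ^ k

/-- The finite pattern with its heights. -/
structure Stage (O : Type) [Field O] (ε : ℝ) (D : ℕ) where
  H : Ht O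
  s : ℝ
  spos : 0 < s
  bz : Fin 3 → O
  bw : Fin 3 → O
  bzinj : Function.Injective bz
  bwinj : Function.Injective bw
  u : Fin 3 → Fin 3 → O
  une : ∀ i k, u i k ≠ 0
  uinj : ∀ i, Function.Injective (u i)
  bigm : u 0 1 / (u 0 0 - u 0 1) ∈ H.dom
  big : s / 4 ≤ H.h (u 0 1 / (u 0 0 - u 0 1))
  gen : ∀ c : ℕ → ℕ → O, (∃ i ≤ D, ∃ k ≤ D, c i k ≠ 0) → ∃ (x y : O) (a a' : Fin 3 → O),
    (∀ i, a i ≠ 0 ∧ a' i ≠ 0 ∧ x = bz i + a i - a' i ∧ y = bw i + (a i)⁻¹ - (a' i)⁻¹ ∧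
      x ≠ bz i ∧ a i ≠ u i 2 ∧ cr (u i) (a i) ∈ H.dom ∧ H.h (cr (u i) (a i)) ≤ ε * s) ∧
    bev D c x y ≠ 0

/-- Some path of length two has a transcendental ratio of directions. -/
def TrCh {O : Type} [Field O] [CharZero O] (E : V → V → Prop) (z : V → O) : Prop :=
  ∃ b a a', E a b ∧ E a' b ∧ Transcendental ℚ ((z a - z b) / (z a' - z b))

/-- Statement proved by the valuation part. -/
def HostSmall (O : Type) [Field O] [CharZero O] : Prop :=
  ∀ C κ K : ℝ, 1 ≤ C → 0 < κ → 0 < K → ∃ d0 : ℝ, ∀ (V : Type) [Fintype V] (E : V → V → Prop)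
    (z w : V → O) (d : ℝ), d0 ≤ d → Host E C κ K d → Rl E z w → TrCh E z → False

/-- Existence of places. -/
def PlacesExist (O : Type) [Field O] [CharZero O] : Prop :=
  ∀ (S : Finset O) (r : O), Transcendental ℚ r → ∃ (L : Subfield O) (P : Places L),
    (∀ x ∈ S, x ∈ L) ∧ ∃ hr : r ∈ L, ∃ i, (P.pl i).ord ⟨r, hr⟩ ≠ 0

end
end Pool.Agent.Lib.MP_439fea_co.Z
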